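import Pool.Agent.H71.TP.Ter

set_option autoImplicit false

/-!
# Totally symmetric distributive ternary operations: the edge from `r` to `C (C r)` is an involution
-/

namespace ALoop

namespace TS

variable {K : Type*} {T : K → K → K → K}

theorem kapA (h : TS T) {p q r v r1 r2 k w a a1 b : K}
    (f25 : T p q r = r1)
    (f37 : T p q r1 = r2)
    (f51 : T r r2 v = k)
    (f85 : T p q w = v)
    (f105 : T r1 r2 w = a)
    (f127 : T p q a1 = a)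
    (f151 : T r r1 a1 = b) : b = k := by
  obtain ⟨x12, f177⟩ : ∃ d, T p q v = d := ⟨_, rfl⟩
  obtain ⟨x13, f205⟩ : ∃ d, T p r v = d := ⟨_, rfl⟩
  obtain ⟨x14, f235⟩ : ∃ d, T q r v = d := ⟨_, rfl⟩
  obtain ⟨x15, f267⟩ : ∃ d, T p q x12 = d := ⟨_, rfl⟩
  obtain ⟨x16, f301⟩ : ∃ d, T p q x13 = d := ⟨_, rfl⟩
  have f302 : T q r1 x12 = x16 :=
    h.st (h.id2 p q) f25 f177 f205 f301
  obtain ⟨x17, f338⟩ : ∃ d, T p q x14 = d := ⟨_, rfl⟩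
  have f339 : T p r1 x12 = x17 :=
    h.st (h.id3 p q) f25 f177 f235 f338
  obtain ⟨x18, f377⟩ : ∃ d, T p r r1 = d := ⟨_, rfl⟩
  have f378 : T x18 r1 r2 = p :=
    h.st (h.p23 f377) (h.id2 p r1) (h.p23 f37) (h.p12 (h.p23 f25)) (h.id3 p r1)
  obtain ⟨x19, f418⟩ : ∃ d, T p r w = d := ⟨_, rfl⟩
  have f419 : T x19 r r1 = x13 :=
    h.st f418 (h.id2 p r) (h.p23 f25) (h.p12 (h.p23 f85)) f205
  obtain ⟨x20, f461⟩ : ∃ d, T p r x12 = d := ⟨_, rfl⟩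
  have f462 : T x20 x12 x15 = x17 :=
    h.st (h.p23 f461) (h.id2 p x12) (h.p23 f267) (h.p12 (h.p23 f25)) (h.p23 f339)
  have f463 : T r r1 x13 = x20 :=
    h.st (h.id2 p r) (h.p23 f25) f205 f177 f461
  obtain ⟨x21, f507⟩ : ∃ d, T p r x13 = d := ⟨_, rfl⟩
  obtain ⟨x22, f553⟩ : ∃ d, T p r x14 = d := ⟨_, rfl⟩
  have f554 : T p r1 x13 = x22 :=
    h.st (h.id3 p r) (h.p23 f25) f205 (h.p12 f235) f553
  obtain ⟨x23, f603⟩ : ∃ d, T p v r1 = d := ⟨_, rfl⟩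
  have f604 : T x23 r1 r2 = x17 :=
    h.st (h.p23 f603) (h.id2 p r1) (h.p23 f37) (h.p12 (h.p23 f177)) f339
  have f605 : T x23 r1 x18 = x22 :=
    h.st (h.p23 f603) (h.id2 p r1) (h.p23 f377) (h.p12 (h.p23 f205)) f554
  have f606 : T v x12 x13 = x23 :=
    h.st (h.id2 p v) (h.p23 f177) (h.p23 f205) f25 f603
  obtain ⟨x24, f656⟩ : ∃ d, T p v w = d := ⟨_, rfl⟩
  have f657 : T x24 v x12 = p :=
    h.st f656 (h.id2 p v) (h.p23 f177) (h.p12 (h.p23 f85)) (h.id3 p v)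
  obtain ⟨x25, f709⟩ : ∃ d, T p v x12 = d := ⟨_, rfl⟩
  have f710 : T x25 x12 x15 = p :=
    h.st (h.p23 f709) (h.id2 p x12) (h.p23 f267) (h.p12 (h.p23 f177)) (h.id3 p x12)
  have f711 : T v x12 w = x15 :=
    h.st4 (h.p23 (h.p12 f709)) (h.id2 v x12) (h.p23 (h.p12 f657)) f656 f710
  obtain ⟨x27, f822⟩ : ∃ d, T p v x14 = d := ⟨_, rfl⟩
  have f824 : T p x12 x13 = x27 :=
    h.st (h.id3 p v) (h.p23 f177) (h.p23 f205) (h.p12 (h.p23 f235)) f822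
  have f826 : T x12 x20 x25 = x27 :=
    h.st (h.id2 p x12) (h.p23 f461) (h.p23 f709) f205 f824
  obtain ⟨x28, f884⟩ : ∃ d, T q r r1 = d := ⟨_, rfl⟩
  have f885 : T x28 r1 x18 = r :=
    h.st (h.p23 (h.p12 f884)) (h.id2 r r1) (h.p23 (h.p12 f377)) (h.p23 (h.p12 f25)) (h.id3 r r1)
  have f886 : T x28 r1 r2 = q :=
    h.st (h.p23 f884) (h.id2 q r1) (h.p23 (h.p12 f37)) (h.p12 (h.p23 (h.p12 f25))) (h.id3 q r1)
  have f887 : T r2 x18 x28 = r1 :=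
    h.st7 (h.p12 f886) (h.p12 f885) (h.id3 r1 x28) (h.id2 r1 x28) f884
  obtain ⟨x30, f1011⟩ : ∃ d, T q r x12 = d := ⟨_, rfl⟩
  have f1013 : T r r1 x14 = x30 :=
    h.st (h.id2 q r) (h.p23 (h.p12 f25)) f235 (h.p12 f177) f1011
  obtain ⟨x31, f1077⟩ : ∃ d, T q r x13 = d := ⟨_, rfl⟩
  have f1079 : T q r1 x14 = x31 :=
    h.st (h.id3 q r) (h.p23 (h.p12 f25)) f235 (h.p12 f205) f1077
  obtain ⟨x33, f1215⟩ : ∃ d, T q v r1 = d := ⟨_, rfl⟩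
  have f1216 : T x33 r1 r2 = x16 :=
    h.st (h.p23 f1215) (h.id2 q r1) (h.p23 (h.p12 f37)) (h.p12 (h.p23 (h.p12 f177))) f302
  have f1217 : T x33 r1 x28 = x31 :=
    h.st (h.p23 f1215) (h.id2 q r1) (h.p23 f884) (h.p12 (h.p23 f235)) f1079
  have f1218 : T v x12 x14 = x33 :=
    h.st (h.id2 q v) (h.p23 (h.p12 f177)) (h.p23 f235) (h.p12 f25) f1215
  have f1219 : T p q x19 = x33 :=
    h.st3 (h.id2 p q) f85 f25 (h.p23 f418) f1215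
  obtain ⟨x34, f1289⟩ : ∃ d, T q v w = d := ⟨_, rfl⟩
  have f1290 : T x34 v x24 = w :=
    h.st (h.p23 (h.p12 f1289)) (h.id3 v w) (h.p23 (h.p12 f656)) (h.p23 (h.p12 f85)) (h.id2 v w)
  have f1291 : T x34 w x24 = x15 :=
    h.st (h.p23 (h.p12 f1289)) (h.id2 v w) (h.p23 (h.p12 f656)) (h.p23 (h.p12 f177)) (h.p23 f711)
  have f1292 : T x34 v x12 = q :=
    h.st f1289 (h.id2 q v) (h.p23 (h.p12 f177)) (h.p12 (h.p23 (h.p12 f85))) (h.id3 q v)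
  have f1294 : T x12 x34 x24 = v :=
    h.st7 (h.p12 f1292) (h.id3 v x34) (h.p12 f1290) (h.id2 v x34) f1289
  have f1295 : T x12 x24 w = x25 :=
    h.st3 (h.p23 f1294) (h.p12 (h.p23 f657)) (h.id3 x12 x24) f1290 (h.p12 f709)
  obtain ⟨x35, f1367⟩ : ∃ d, T q v x12 = d := ⟨_, rfl⟩
  have f1368 : T x35 x12 x25 = v :=
    h.st (h.p23 (h.p12 f1367)) (h.id2 v x12) (h.p23 (h.p12 f709)) (h.p23 (h.p12 f177)) (h.id3 v x12)
  have f1369 : T x35 x12 x15 = q :=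
    h.st (h.p23 (h.p12 f1367)) (h.id2 v x12) f711 f1289 (h.p23 (h.p12 f1292))
  have f1370 : T x35 x25 x15 = x12 :=
    h.st (h.p23 (h.p12 f1367)) (h.p23 (h.p12 f709)) f711 (h.p12 f85) (h.id2 v x12)
  have f1372 : T x12 x34 w = x35 :=
    h.st3 (h.p12 (h.p23 f1292)) f1294 (h.id3 x12 x34) (h.p23 (h.p12 f1290)) f1367
  have f1373 : T w x12 x15 = v :=
    h.st3 (h.p12 (h.p23 f1372)) (h.id2 w x12) (h.p12 (h.p23 f1295)) f1291 f1368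
  have f1374 : T x35 x25 w = x15 :=
    h.st7 (h.p23 (h.p12 f1369)) (h.p23 (h.p12 f710)) (h.p23 (h.p12 f1373)) (h.id3 x12 x15) (h.p12 f177)
  obtain ⟨x36, f1450⟩ : ∃ d, T q v x13 = d := ⟨_, rfl⟩
  have f1453 : T q x12 x14 = x36 :=
    h.st (h.id3 q v) (h.p23 (h.p12 f177)) (h.p23 f235) (h.p12 (h.p23 f205)) f1450
  obtain ⟨x38, f1611⟩ : ∃ d, T r v r1 = d := ⟨_, rfl⟩
  have f1613 : T x38 r1 x18 = x20 :=
    h.st (h.p23 f1611) (h.id2 r r1) (h.p23 (h.p12 f377)) (h.p12 (h.p23 (h.p12 f205))) f463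
  have f1614 : T x38 r1 x28 = x30 :=
    h.st (h.p23 f1611) (h.id2 r r1) (h.p23 (h.p12 f884)) (h.p12 (h.p23 (h.p12 f235))) f1013
  obtain ⟨x39, f1696⟩ : ∃ d, T r v w = d := ⟨_, rfl⟩
  have f1698 : T x39 x13 x14 = r :=
    h.st f1696 (h.p23 (h.p12 f205)) (h.p23 (h.p12 f235)) (h.p12 (h.p23 f85)) (h.id3 r v)
  obtain ⟨x40, f1780⟩ : ∃ d, T r v x12 = d := ⟨_, rfl⟩
  have f1781 : T x40 x12 x25 = x23 :=
    h.st (h.p23 (h.p12 f1780)) (h.id2 v x12) (h.p23 (h.p12 f709)) (h.p23 (h.p12 f205)) f606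
  have f1782 : T x40 x12 x35 = x33 :=
    h.st (h.p23 (h.p12 f1780)) (h.id2 v x12) (h.p23 (h.p12 f1367)) (h.p23 (h.p12 f235)) f1218
  have f1784 : T r x13 x14 = x40 :=
    h.st (h.id3 r v) (h.p23 (h.p12 f205)) (h.p23 (h.p12 f235)) (h.p12 (h.p23 f177)) f1780
  obtain ⟨x43, f2052⟩ : ∃ d, T p q r2 = d := ⟨_, rfl⟩
  have f2053 : T r1 r2 r = x43 :=
    h.st3 (h.p23 (h.p12 f378)) (h.p23 (h.p12 f886)) (h.id2 r1 r2) (h.p12 (h.p23 f885)) f2052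
  have f2054 : T r x18 x28 = x43 :=
    h.st (h.id3 r r1) (h.p23 (h.p12 f377)) (h.p23 (h.p12 f884)) (h.p12 (h.p23 f37)) (h.p12 (h.p23 f2053))
  obtain ⟨x44, f2144⟩ : ∃ d, T p q x15 = d := ⟨_, rfl⟩
  have f2145 : T v x12 x15 = x44 :=
    h.st f85 f177 f267 (h.p12 (h.p23 f711)) f2144
  obtain ⟨x45, f2239⟩ : ∃ d, T p q x16 = d := ⟨_, rfl⟩
  have f2240 : T p r2 x15 = x45 :=
    h.st (h.id3 p q) f37 f267 f302 f2239
  obtain ⟨x46, f2334⟩ : ∃ d, T p q x17 = d := ⟨_, rfl⟩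
  have f2335 : T q r2 x15 = x46 :=
    h.st (h.id2 p q) f37 f267 f339 f2334
  obtain ⟨x47, f2431⟩ : ∃ d, T p q x18 = d := ⟨_, rfl⟩
  have f2432 : T q r1 r2 = x47 :=
    h.st (h.id2 p q) f25 f37 f377 f2431
  have f2434 : T r2 x28 r = x47 :=
    h.st3 (h.p12 (h.p23 f886)) (h.p23 f887) (h.id3 r2 x28) (h.p23 (h.p12 f885)) f2432
  obtain ⟨x48, f2532⟩ : ∃ d, T p q x20 = d := ⟨_, rfl⟩
  have f2533 : T q r1 x15 = x48 :=
    h.st (h.id2 p q) f25 f267 f461 f2532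
  have f2534 : T r1 r2 x16 = x48 :=
    h.st f25 f37 f301 f463 f2532
  have f2535 : T x48 x15 x44 = x46 :=
    h.st f2532 f267 f2144 f462 f2334
  obtain ⟨x49, f2635⟩ : ∃ d, T p q x21 = d := ⟨_, rfl⟩
  have f2636 : T q r1 x16 = x49 :=
    h.st (h.id2 p q) f25 f301 f507 f2635
  obtain ⟨x50, f2738⟩ : ∃ d, T p q x22 = d := ⟨_, rfl⟩
  have f2739 : T q r1 x17 = x50 :=
    h.st (h.id2 p q) f25 f338 f553 f2738
  have f2742 : T r1 r2 x31 = x50 :=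
    h.st (h.id2 q r1) (h.p23 (h.p12 f37)) f1079 (h.p12 f338) f2739
  obtain ⟨x51, f2847⟩ : ∃ d, T p q x23 = d := ⟨_, rfl⟩
  have f2848 : T q r2 x12 = x51 :=
    h.st (h.id2 p q) f37 f177 (h.p23 f603) f2847
  have f2849 : T x51 r2 x43 = x46 :=
    h.st f2847 f37 f2052 f604 f2334
  have f2850 : T x51 r2 x47 = x50 :=
    h.st f2847 f37 f2431 f605 f2738
  have f2851 : T x12 x15 x16 = x51 :=
    h.st f177 f267 f301 f606 f2847
  have f2852 : T r1 r2 x14 = x51 :=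
    h.st4 (h.id2 r1 r2) (h.p23 (h.p12 f2432)) f2742 (h.p12 f1079) (h.p23 (h.p12 f2850))
  have f2853 : T r1 r2 x30 = x46 :=
    h.st3 f2852 (h.id2 r1 r2) f2053 (h.p12 (h.p23 (h.p12 f1013))) f2849
  have f2854 : T r1 r2 x38 = x15 :=
    h.st4 (h.id2 r1 r2) (h.p23 (h.p12 f886)) f2853 (h.p23 (h.p12 f1614)) (h.p12 f2335)
  have f2857 : T x38 r2 x28 = x16 :=
    h.st7 f2854 (h.id3 r1 r2) (h.p23 (h.p12 f886)) f2534 (h.p12 (h.p23 (h.p12 f2533)))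
  have f2858 : T r1 r2 x20 = x45 :=
    h.st3 f2854 (h.id2 r1 r2) (h.p23 (h.p12 f378)) f1613 (h.p12 (h.p23 (h.p12 f2240)))
  have f2860 : T r2 x28 x20 = x49 :=
    h.st3 (h.p23 (h.p12 f2857)) (h.p12 (h.p23 f886)) (h.p23 f887) f1613 (h.p12 (h.p23 f2636))
  have f2861 : T x18 x28 x33 = x20 :=
    h.st7 (h.p23 (h.p12 f378)) (h.p23 (h.p12 f886)) (h.p23 (h.p12 f1216)) f2858 f2239
  obtain ⟨x52, f2967⟩ : ∃ d, T p q x25 = d := ⟨_, rfl⟩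
  have f2968 : T q x12 x15 = x52 :=
    h.st (h.id2 p q) f177 f267 f709 f2967
  obtain ⟨x54, f3192⟩ : ∃ d, T p q x27 = d := ⟨_, rfl⟩
  have f3193 : T q x12 x17 = x54 :=
    h.st (h.id2 p q) f177 f338 f822 f3192
  have f3195 : T x15 x48 x52 = x54 :=
    h.st f267 f2532 f2967 f826 f3192
  have f3198 : T x12 x15 x36 = x54 :=
    h.st (h.id2 q x12) (h.p23 (h.p12 f267)) f1453 (h.p12 f338) f3193
  have f3200 : T x12 x15 x14 = x48 :=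
    h.st4 (h.id2 x12 x15) (h.p23 (h.p12 f2968)) f3198 (h.p12 f1453) (h.p23 f3195)
  have f3201 : T x12 x15 x33 = x46 :=
    h.st3 f3200 (h.id2 x12 x15) (h.p23 (h.p12 f2145)) (h.p12 (h.p23 (h.p12 f1218))) f2535
  have f3202 : T x12 x15 x40 = r2 :=
    h.st4 (h.id2 x12 x15) (h.p23 (h.p12 f1369)) f3201 (h.p23 (h.p12 f1782)) (h.p12 (h.p23 f2335))
  have f3204 : T v x12 x19 = x17 :=
    h.st7 f177 f267 f1219 f2334 f3201
  have f3205 : T r2 x23 x33 = x40 :=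
    h.st (h.p23 f3202) (h.p12 f1781) (h.p12 f1782) (h.p12 (h.p23 (h.p12 f1370))) (h.id2 x12 x40)
  have f3206 : T x40 x15 x35 = x16 :=
    h.st7 f3202 (h.id3 x12 x15) (h.p23 (h.p12 f1369)) f2851 (h.p23 (h.p12 f2848))
  have f3208 : T v x12 x39 = r2 :=
    h.st3 (h.id2 v x12) f711 (h.p23 (h.p12 f1780)) (h.p23 (h.p12 f1696)) f3202
  have f3210 : T x25 x15 x40 = x17 :=
    h.st (h.p23 (h.p12 f709)) f711 (h.p23 (h.p12 f1780)) (h.p23 f418) f3204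
  obtain ⟨x55, f3328⟩ : ∃ d, T p q x28 = d := ⟨_, rfl⟩
  have f3329 : T p r1 r2 = x55 :=
    h.st (h.id3 p q) f25 f37 f884 f3328
  have f3330 : T x55 r2 x43 = p :=
    h.st f3328 f37 f2052 f886 (h.id3 p q)
  have f3331 : T x55 r2 x47 = r1 :=
    h.st f3328 f37 f2431 f885 f25
  have f3333 : T r2 x18 r = x55 :=
    h.st3 (h.p12 (h.p23 f378)) f887 (h.id3 r2 x18) (h.p12 f885) f3329
  have f3334 : T r r2 x43 = r1 :=
    h.st3 (h.p12 (h.p23 f3333)) (h.id2 r r2) (h.p12 (h.p23 f2434)) (h.p12 f2054) f3331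
  have f3335 : T x55 r x47 = x43 :=
    h.st (h.p12 (h.p23 f3333)) (h.id3 r r2) (h.p12 (h.p23 f2434)) (h.p12 f887) (h.p12 (h.p23 (h.p12 f2053)))
  have f3336 : T r2 x55 r = x18 :=
    h.st4 (h.id3 r2 x55) (h.p12 f3331) (h.p12 f3330) (h.p23 f3335) (h.p12 (h.p23 (h.p12 f378)))
  obtain ⟨x56, f3451⟩ : ∃ d, T p q x30 = d := ⟨_, rfl⟩
  have f3452 : T p r1 x15 = x56 :=
    h.st (h.id3 p q) f25 f267 f1011 f3451
  have f3453 : T r1 r2 x17 = x56 :=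
    h.st f25 f37 f338 f1013 f3451
  have f3456 : T x18 r2 x38 = x17 :=
    h.st7 (h.p23 (h.p12 f378)) (h.id3 r1 r2) f2854 f3453 f3452
  obtain ⟨x57, f3576⟩ : ∃ d, T p q x31 = d := ⟨_, rfl⟩
  have f3578 : T p r2 x17 = x57 :=
    h.st (h.id3 p q) f37 f338 f1079 f3576
  have f3583 : T r2 x18 x20 = x57 :=
    h.st3 (h.p12 (h.p23 f378)) (h.id3 r2 x18) (h.p12 f3456) (h.p23 (h.p12 f1613)) f3578
  have f3584 : T x57 x20 x49 = x45 :=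
    h.st (h.p23 f3583) (h.id2 r2 x20) (h.p23 f2860) (h.p12 f887) (h.p23 (h.p12 f2858))
  obtain ⟨x59, f3827⟩ : ∃ d, T p q x33 = d := ⟨_, rfl⟩
  have f3828 : T p r2 x12 = x59 :=
    h.st (h.id3 p q) f37 f177 (h.p23 f1215) f3827
  have f3829 : T x59 r2 x43 = x45 :=
    h.st f3827 f37 f2052 f1216 f2239
  have f3830 : T x59 r2 x55 = x57 :=
    h.st f3827 f37 f3328 f1217 f3576
  have f3831 : T x12 x15 x17 = x59 :=
    h.st f177 f267 f338 f1218 f3827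
  have f3834 : T r1 r2 x13 = x59 :=
    h.st4 (h.id2 r1 r2) f2053 f2858 (h.p12 f463) (h.p23 (h.p12 f3829))
  obtain ⟨x63, f4363⟩ : ∃ d, T p q x38 = d := ⟨_, rfl⟩
  have f4364 : T r1 r2 x12 = x63 :=
    h.st f25 f37 f177 (h.p23 f1611) f4363
  obtain ⟨x64, f4504⟩ : ∃ d, T p q x39 = d := ⟨_, rfl⟩
  have f4505 : T r1 v x12 = x64 :=
    h.st f25 f85 f177 (h.p23 f1696) f4504
  have f4507 : T x64 x12 x15 = x43 :=
    h.st f4504 f177 f267 (h.p12 (h.p23 f3208)) f2052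
  have f4509 : T x25 x35 x40 = x64 :=
    h.st (h.p23 (h.p12 f709)) (h.p23 (h.p12 f1367)) (h.p23 (h.p12 f1780)) f25 (h.p23 (h.p12 f4505))
  have f4515 : T x15 x25 x64 = x59 :=
    h.st3 (h.id3 x15 x25) (h.p12 (h.p23 (h.p12 f1370))) (h.p12 f3210) f4509 (h.p12 f3831)
  have f4516 : T x15 x35 x64 = x51 :=
    h.st3 (h.p12 (h.p23 f1370)) (h.id3 x15 x35) (h.p23 (h.p12 f3206)) f4509 f2851
  have f4522 : T x59 x64 x51 = x43 :=
    h.st (h.p23 f4515) (h.id2 x15 x64) (h.p23 f4516) (h.p23 (h.p12 f1370)) (h.p12 (h.p23 f4507))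
  have f4528 : T x33 x39 x23 = r2 :=
    h.st7 f3827 f4504 f2847 f2052 f4522
  have f4529 : T r1 r2 x39 = x64 :=
    h.st4 f3834 f2852 f2053 (h.p23 (h.p12 f1698)) (h.p23 f4522)
  have f4531 : T x12 x40 w = x39 :=
    h.st4 (h.p12 f1782) (h.p12 f1781) (h.p23 f3202) f1374 (h.p23 f4528)
  obtain ⟨x65, f4663⟩ : ∃ d, T p q x40 = d := ⟨_, rfl⟩
  have f4665 : T r1 x16 x17 = x65 :=
    h.st f25 f301 f338 f1784 f4663
  have f4678 : T r1 r2 x40 = x65 :=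
    h.st3 (h.id3 r1 r2) (h.p23 (h.p12 f1216)) (h.p23 (h.p12 f604)) (h.p23 f3205) f4665
  have f4680 : T x65 a x63 = x64 :=
    h.st f4678 f105 f4364 (h.p23 (h.p12 f4531)) f4529
  have f4682 : T x40 a1 x38 = x39 :=
    h.st7 f4663 f127 f4363 f4504 f4680
  obtain ⟨x68, f5106⟩ : ∃ d, T p r r2 = d := ⟨_, rfl⟩
  have f5109 : T r r1 x18 = x68 :=
    h.st (h.id3 r r2) f3334 (h.p12 (h.p23 f3336)) (h.p23 (h.p12 f3330)) (h.p23 (h.p12 f5106))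
  obtain ⟨x70, f5402⟩ : ∃ d, T p r x16 = d := ⟨_, rfl⟩
  have f5404 : T r r1 x21 = x70 :=
    h.st (h.id2 p r) (h.p23 f25) f507 f301 f5402
  have f5405 : T r1 x18 x20 = x70 :=
    h.st (h.p23 f25) f377 f461 f302 f5402
  have f5406 : T r1 x18 x33 = x21 :=
    h.st4 (h.p23 (h.p12 f885)) (h.id3 r1 x18) f5405 (h.p12 f2861) f5404
  have f5409 : T r2 x47 x59 = x49 :=
    h.st f37 f2431 f3827 f5406 f2635
  have f5412 : T r2 x59 r = x20 :=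
    h.st4 (h.p23 f5409) (h.p12 f3830) (h.p12 f3829) (h.p12 (h.p23 f3335)) (h.p12 (h.p23 f3584))
  obtain ⟨x93, f9539⟩ : ∃ d, T p r x39 = d := ⟨_, rfl⟩
  have f9545 : T x93 x21 x22 = p :=
    h.st f9539 f507 f553 f1698 (h.id3 p r)
  have f9547 : T r1 x18 x39 = x93 :=
    h.st4 f5406 (h.p23 (h.p12 f605)) (h.p12 f378) (h.p23 f4528) (h.p23 (h.p12 f9545))
  obtain ⟨x94, f9738⟩ : ∃ d, T p r x40 = d := ⟨_, rfl⟩
  have f9740 : T p x21 x22 = x94 :=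
    h.st (h.id3 p r) f507 f553 f1784 f9738
  have f9741 : T x94 x19 x20 = x93 :=
    h.st f9738 f418 f461 (h.p23 (h.p12 f4531)) f9539
  have f9752 : T r1 x18 x40 = x94 :=
    h.st3 (h.p12 f378) f5406 (h.p23 (h.p12 f605)) (h.p23 f3205) f9740
  have f9755 : T r1 x18 a1 = x19 :=
    h.st4 f9752 (h.p23 (h.p12 f1613)) f9547 (h.p23 f4682) (h.p23 f9741)
  have f9757 : T r x68 b = x13 :=
    h.st (h.id3 r r1) f5109 f151 f9755 (h.p23 (h.p12 f419))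
  obtain ⟨x97, f10368⟩ : ∃ d, T p v r2 = d := ⟨_, rfl⟩
  have f10369 : T x97 r2 x43 = x59 :=
    h.st (h.p23 f10368) (h.id2 p r2) (h.p23 f2052) (h.p12 (h.p23 f177)) f3828
  have f10373 : T r r2 x97 = x13 :=
    h.st4 (h.id3 r r2) f3334 (h.p12 (h.p23 f5412)) (h.p23 (h.p12 f10369)) f463
  have f10390 : T r k x68 = x13 :=
    h.st (h.id3 r r2) f51 (h.p23 (h.p12 f5106)) (h.p12 (h.p23 (h.p12 f10368))) f10373
  exact h.inj r x68 b k (f9757.trans (h.p23 f10390).symm)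

theorem kapB (h : TS T) {p q r v r1 r2 k w a a1 kk : K}
    (f25 : T p q r = r1)
    (f37 : T p q r1 = r2)
    (f51 : T r r2 v = k)
    (f67 : T p q w = v)
    (f85 : T r1 r2 w = a)
    (f105 : T p q a1 = a)
    (f128 : T r r2 k = kk) : v = kk := by
  have f106 : T r r1 a1 = k := h.kapA f25 f37 f51 f67 f85 f105 rfl
  obtain ⟨x14, f237⟩ : ∃ d, T p q v = d := ⟨_, rfl⟩
  obtain ⟨x15, f269⟩ : ∃ d, T p r v = d := ⟨_, rfl⟩
  obtain ⟨x16, f303⟩ : ∃ d, T q r v = d := ⟨_, rfl⟩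
  obtain ⟨x17, f339⟩ : ∃ d, T p q x14 = d := ⟨_, rfl⟩
  obtain ⟨x18, f377⟩ : ∃ d, T p q x15 = d := ⟨_, rfl⟩
  have f378 : T q r1 x14 = x18 :=
    h.st (h.id2 p q) f25 f237 f269 f377
  obtain ⟨x19, f418⟩ : ∃ d, T p q x16 = d := ⟨_, rfl⟩
  have f419 : T p r1 x14 = x19 :=
    h.st (h.id3 p q) f25 f237 f303 f418
  obtain ⟨x20, f461⟩ : ∃ d, T p r r1 = d := ⟨_, rfl⟩
  have f462 : T x20 r1 r2 = p :=
    h.st (h.p23 f461) (h.id2 p r1) (h.p23 f37) (h.p12 (h.p23 f25)) (h.id3 p r1)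
  obtain ⟨x21, f506⟩ : ∃ d, T p r w = d := ⟨_, rfl⟩
  have f507 : T x21 r r1 = x15 :=
    h.st f506 (h.id2 p r) (h.p23 f25) (h.p12 (h.p23 f67)) f269
  obtain ⟨x22, f553⟩ : ∃ d, T p r x14 = d := ⟨_, rfl⟩
  have f554 : T x22 x14 x17 = x19 :=
    h.st (h.p23 f553) (h.id2 p x14) (h.p23 f339) (h.p12 (h.p23 f25)) (h.p23 f419)
  have f555 : T r r1 x15 = x22 :=
    h.st (h.id2 p r) (h.p23 f25) f269 f237 f553
  obtain ⟨x23, f603⟩ : ∃ d, T p r x15 = d := ⟨_, rfl⟩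
  obtain ⟨x24, f653⟩ : ∃ d, T p r x16 = d := ⟨_, rfl⟩
  have f654 : T p r1 x15 = x24 :=
    h.st (h.id3 p r) (h.p23 f25) f269 (h.p12 f303) f653
  obtain ⟨x25, f707⟩ : ∃ d, T p v r1 = d := ⟨_, rfl⟩
  have f708 : T x25 r1 r2 = x19 :=
    h.st (h.p23 f707) (h.id2 p r1) (h.p23 f37) (h.p12 (h.p23 f237)) f419
  have f709 : T x25 r1 x20 = x24 :=
    h.st (h.p23 f707) (h.id2 p r1) (h.p23 f461) (h.p12 (h.p23 f269)) f654
  have f710 : T v x14 x15 = x25 :=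
    h.st (h.id2 p v) (h.p23 f237) (h.p23 f269) f25 f707
  obtain ⟨x26, f764⟩ : ∃ d, T p v w = d := ⟨_, rfl⟩
  have f765 : T x26 v x14 = p :=
    h.st f764 (h.id2 p v) (h.p23 f237) (h.p12 (h.p23 f67)) (h.id3 p v)
  obtain ⟨x27, f821⟩ : ∃ d, T p v x14 = d := ⟨_, rfl⟩
  have f822 : T x27 x14 x17 = p :=
    h.st (h.p23 f821) (h.id2 p x14) (h.p23 f339) (h.p12 (h.p23 f237)) (h.id3 p x14)
  have f823 : T v x14 w = x17 :=
    h.st4 (h.p23 (h.p12 f821)) (h.id2 v x14) (h.p23 (h.p12 f765)) f764 f822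
  obtain ⟨x29, f942⟩ : ∃ d, T p v x16 = d := ⟨_, rfl⟩
  have f944 : T p x14 x15 = x29 :=
    h.st (h.id3 p v) (h.p23 f237) (h.p23 f269) (h.p12 (h.p23 f303)) f942
  have f946 : T x14 x22 x27 = x29 :=
    h.st (h.id2 p x14) (h.p23 f553) (h.p23 f821) f269 f944
  obtain ⟨x30, f1008⟩ : ∃ d, T q r r1 = d := ⟨_, rfl⟩
  have f1009 : T x30 r1 x20 = r :=
    h.st (h.p23 (h.p12 f1008)) (h.id2 r r1) (h.p23 (h.p12 f461)) (h.p23 (h.p12 f25)) (h.id3 r r1)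
  have f1010 : T x30 r1 r2 = q :=
    h.st (h.p23 f1008) (h.id2 q r1) (h.p23 (h.p12 f37)) (h.p12 (h.p23 (h.p12 f25))) (h.id3 q r1)
  have f1011 : T r2 x20 x30 = r1 :=
    h.st7 (h.p12 f1010) (h.p12 f1009) (h.id3 r1 x30) (h.id2 r1 x30) f1008
  obtain ⟨x32, f1143⟩ : ∃ d, T q r x14 = d := ⟨_, rfl⟩
  have f1145 : T r r1 x16 = x32 :=
    h.st (h.id2 q r) (h.p23 (h.p12 f25)) f303 (h.p12 f237) f1143
  obtain ⟨x33, f1213⟩ : ∃ d, T q r x15 = d := ⟨_, rfl⟩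
  have f1215 : T q r1 x16 = x33 :=
    h.st (h.id3 q r) (h.p23 (h.p12 f25)) f303 (h.p12 f269) f1213
  obtain ⟨x35, f1359⟩ : ∃ d, T q v r1 = d := ⟨_, rfl⟩
  have f1360 : T x35 r1 r2 = x18 :=
    h.st (h.p23 f1359) (h.id2 q r1) (h.p23 (h.p12 f37)) (h.p12 (h.p23 (h.p12 f237))) f378
  have f1361 : T x35 r1 x30 = x33 :=
    h.st (h.p23 f1359) (h.id2 q r1) (h.p23 f1008) (h.p12 (h.p23 f303)) f1215
  have f1362 : T v x14 x16 = x35 :=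
    h.st (h.id2 q v) (h.p23 (h.p12 f237)) (h.p23 f303) (h.p12 f25) f1359
  have f1363 : T p q x21 = x35 :=
    h.st3 (h.id2 p q) f67 f25 (h.p23 f506) f1359
  obtain ⟨x36, f1437⟩ : ∃ d, T q v w = d := ⟨_, rfl⟩
  have f1438 : T x36 v x26 = w :=
    h.st (h.p23 (h.p12 f1437)) (h.id3 v w) (h.p23 (h.p12 f764)) (h.p23 (h.p12 f67)) (h.id2 v w)
  have f1439 : T x36 w x26 = x17 :=
    h.st (h.p23 (h.p12 f1437)) (h.id2 v w) (h.p23 (h.p12 f764)) (h.p23 (h.p12 f237)) (h.p23 f823)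
  have f1440 : T x36 v x14 = q :=
    h.st f1437 (h.id2 q v) (h.p23 (h.p12 f237)) (h.p12 (h.p23 (h.p12 f67))) (h.id3 q v)
  have f1442 : T x14 x36 x26 = v :=
    h.st7 (h.p12 f1440) (h.id3 v x36) (h.p12 f1438) (h.id2 v x36) f1437
  have f1443 : T x14 x26 w = x27 :=
    h.st3 (h.p23 f1442) (h.p12 (h.p23 f765)) (h.id3 x14 x26) f1438 (h.p12 f821)
  obtain ⟨x37, f1519⟩ : ∃ d, T q v x14 = d := ⟨_, rfl⟩
  have f1520 : T x37 x14 x27 = v :=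
    h.st (h.p23 (h.p12 f1519)) (h.id2 v x14) (h.p23 (h.p12 f821)) (h.p23 (h.p12 f237)) (h.id3 v x14)
  have f1521 : T x37 x14 x17 = q :=
    h.st (h.p23 (h.p12 f1519)) (h.id2 v x14) f823 f1437 (h.p23 (h.p12 f1440))
  have f1522 : T x37 x27 x17 = x14 :=
    h.st (h.p23 (h.p12 f1519)) (h.p23 (h.p12 f821)) f823 (h.p12 f67) (h.id2 v x14)
  have f1524 : T x14 x36 w = x37 :=
    h.st3 (h.p12 (h.p23 f1440)) f1442 (h.id3 x14 x36) (h.p23 (h.p12 f1438)) f1519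
  have f1525 : T w x14 x17 = v :=
    h.st3 (h.p12 (h.p23 f1524)) (h.id2 w x14) (h.p12 (h.p23 f1443)) f1439 f1520
  have f1526 : T x37 x27 w = x17 :=
    h.st7 (h.p23 (h.p12 f1521)) (h.p23 (h.p12 f822)) (h.p23 (h.p12 f1525)) (h.id3 x14 x17) (h.p12 f237)
  obtain ⟨x38, f1606⟩ : ∃ d, T q v x15 = d := ⟨_, rfl⟩
  have f1609 : T q x14 x16 = x38 :=
    h.st (h.id3 q v) (h.p23 (h.p12 f237)) (h.p23 f303) (h.p12 (h.p23 f269)) f1606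
  obtain ⟨x40, f1775⟩ : ∃ d, T r v r1 = d := ⟨_, rfl⟩
  have f1777 : T x40 r1 x20 = x22 :=
    h.st (h.p23 f1775) (h.id2 r r1) (h.p23 (h.p12 f461)) (h.p12 (h.p23 (h.p12 f269))) f555
  have f1778 : T x40 r1 x30 = x32 :=
    h.st (h.p23 f1775) (h.id2 r r1) (h.p23 (h.p12 f1008)) (h.p12 (h.p23 (h.p12 f303))) f1145
  obtain ⟨x41, f1867⟩ : ∃ d, T r v w = d := ⟨_, rfl⟩
  have f1869 : T x41 x15 x16 = r :=
    h.st f1867 (h.p23 (h.p12 f269)) (h.p23 (h.p12 f303)) (h.p12 (h.p23 f67)) (h.id3 r v)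
  obtain ⟨x42, f1955⟩ : ∃ d, T r v x14 = d := ⟨_, rfl⟩
  have f1956 : T x42 x14 x27 = x25 :=
    h.st (h.p23 (h.p12 f1955)) (h.id2 v x14) (h.p23 (h.p12 f821)) (h.p23 (h.p12 f269)) f710
  have f1957 : T x42 x14 x37 = x35 :=
    h.st (h.p23 (h.p12 f1955)) (h.id2 v x14) (h.p23 (h.p12 f1519)) (h.p23 (h.p12 f303)) f1362
  have f1959 : T r x15 x16 = x42 :=
    h.st (h.id3 r v) (h.p23 (h.p12 f269)) (h.p23 (h.p12 f303)) (h.p12 (h.p23 f237)) f1955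
  obtain ⟨x45, f2239⟩ : ∃ d, T p q r2 = d := ⟨_, rfl⟩
  have f2240 : T r1 r2 r = x45 :=
    h.st3 (h.p23 (h.p12 f462)) (h.p23 (h.p12 f1010)) (h.id2 r1 r2) (h.p12 (h.p23 f1009)) f2239
  have f2241 : T r x20 x30 = x45 :=
    h.st (h.id3 r r1) (h.p23 (h.p12 f461)) (h.p23 (h.p12 f1008)) (h.p12 (h.p23 f37)) (h.p12 (h.p23 f2240))
  obtain ⟨x46, f2335⟩ : ∃ d, T p q x17 = d := ⟨_, rfl⟩
  have f2336 : T v x14 x17 = x46 :=
    h.st f67 f237 f339 (h.p12 (h.p23 f823)) f2335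
  obtain ⟨x47, f2434⟩ : ∃ d, T p q x18 = d := ⟨_, rfl⟩
  have f2435 : T p r2 x17 = x47 :=
    h.st (h.id3 p q) f37 f339 f378 f2434
  obtain ⟨x48, f2533⟩ : ∃ d, T p q x19 = d := ⟨_, rfl⟩
  have f2534 : T q r2 x17 = x48 :=
    h.st (h.id2 p q) f37 f339 f419 f2533
  obtain ⟨x49, f2634⟩ : ∃ d, T p q x20 = d := ⟨_, rfl⟩
  have f2635 : T q r1 r2 = x49 :=
    h.st (h.id2 p q) f25 f37 f461 f2634
  have f2637 : T r2 x30 r = x49 :=
    h.st3 (h.p12 (h.p23 f1010)) (h.p23 f1011) (h.id3 r2 x30) (h.p23 (h.p12 f1009)) f2635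
  obtain ⟨x50, f2739⟩ : ∃ d, T p q x22 = d := ⟨_, rfl⟩
  have f2740 : T q r1 x17 = x50 :=
    h.st (h.id2 p q) f25 f339 f553 f2739
  have f2741 : T r1 r2 x18 = x50 :=
    h.st f25 f37 f377 f555 f2739
  have f2742 : T x50 x17 x46 = x48 :=
    h.st f2739 f339 f2335 f554 f2533
  obtain ⟨x51, f2846⟩ : ∃ d, T p q x23 = d := ⟨_, rfl⟩
  have f2847 : T q r1 x18 = x51 :=
    h.st (h.id2 p q) f25 f377 f603 f2846
  obtain ⟨x52, f2953⟩ : ∃ d, T p q x24 = d := ⟨_, rfl⟩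
  have f2954 : T q r1 x19 = x52 :=
    h.st (h.id2 p q) f25 f418 f653 f2953
  have f2957 : T r1 r2 x33 = x52 :=
    h.st (h.id2 q r1) (h.p23 (h.p12 f37)) f1215 (h.p12 f418) f2954
  obtain ⟨x53, f3066⟩ : ∃ d, T p q x25 = d := ⟨_, rfl⟩
  have f3067 : T q r2 x14 = x53 :=
    h.st (h.id2 p q) f37 f237 (h.p23 f707) f3066
  have f3068 : T x53 r2 x45 = x48 :=
    h.st f3066 f37 f2239 f708 f2533
  have f3069 : T x53 r2 x49 = x52 :=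
    h.st f3066 f37 f2634 f709 f2953
  have f3070 : T x14 x17 x18 = x53 :=
    h.st f237 f339 f377 f710 f3066
  have f3071 : T r1 r2 x16 = x53 :=
    h.st4 (h.id2 r1 r2) (h.p23 (h.p12 f2635)) f2957 (h.p12 f1215) (h.p23 (h.p12 f3069))
  have f3072 : T r1 r2 x32 = x48 :=
    h.st3 f3071 (h.id2 r1 r2) f2240 (h.p12 (h.p23 (h.p12 f1145))) f3068
  have f3073 : T r1 r2 x40 = x17 :=
    h.st4 (h.id2 r1 r2) (h.p23 (h.p12 f1010)) f3072 (h.p23 (h.p12 f1778)) (h.p12 f2534)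
  have f3076 : T x40 r2 x30 = x18 :=
    h.st7 f3073 (h.id3 r1 r2) (h.p23 (h.p12 f1010)) f2741 (h.p12 (h.p23 (h.p12 f2740)))
  have f3077 : T r1 r2 x22 = x47 :=
    h.st3 f3073 (h.id2 r1 r2) (h.p23 (h.p12 f462)) f1777 (h.p12 (h.p23 (h.p12 f2435)))
  have f3079 : T r2 x30 x22 = x51 :=
    h.st3 (h.p23 (h.p12 f3076)) (h.p12 (h.p23 f1010)) (h.p23 f1011) f1777 (h.p12 (h.p23 f2847))
  have f3080 : T x20 x30 x35 = x22 :=
    h.st7 (h.p23 (h.p12 f462)) (h.p23 (h.p12 f1010)) (h.p23 (h.p12 f1360)) f3077 f2434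
  obtain ⟨x54, f3190⟩ : ∃ d, T p q x27 = d := ⟨_, rfl⟩
  have f3191 : T q x14 x17 = x54 :=
    h.st (h.id2 p q) f237 f339 f821 f3190
  obtain ⟨x56, f3423⟩ : ∃ d, T p q x29 = d := ⟨_, rfl⟩
  have f3424 : T q x14 x19 = x56 :=
    h.st (h.id2 p q) f237 f418 f942 f3423
  have f3426 : T x17 x50 x54 = x56 :=
    h.st f339 f2739 f3190 f946 f3423
  have f3429 : T x14 x17 x38 = x56 :=
    h.st (h.id2 q x14) (h.p23 (h.p12 f339)) f1609 (h.p12 f418) f3424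
  have f3431 : T x14 x17 x16 = x50 :=
    h.st4 (h.id2 x14 x17) (h.p23 (h.p12 f3191)) f3429 (h.p12 f1609) (h.p23 f3426)
  have f3432 : T x14 x17 x35 = x48 :=
    h.st3 f3431 (h.id2 x14 x17) (h.p23 (h.p12 f2336)) (h.p12 (h.p23 (h.p12 f1362))) f2742
  have f3433 : T x14 x17 x42 = r2 :=
    h.st4 (h.id2 x14 x17) (h.p23 (h.p12 f1521)) f3432 (h.p23 (h.p12 f1957)) (h.p12 (h.p23 f2534))
  have f3435 : T v x14 x21 = x19 :=
    h.st7 f237 f339 f1363 f2533 f3432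
  have f3436 : T r2 x25 x35 = x42 :=
    h.st (h.p23 f3433) (h.p12 f1956) (h.p12 f1957) (h.p12 (h.p23 (h.p12 f1522))) (h.id2 x14 x42)
  have f3437 : T x42 x17 x37 = x18 :=
    h.st7 f3433 (h.id3 x14 x17) (h.p23 (h.p12 f1521)) f3070 (h.p23 (h.p12 f3067))
  have f3439 : T v x14 x41 = r2 :=
    h.st3 (h.id2 v x14) f823 (h.p23 (h.p12 f1955)) (h.p23 (h.p12 f1867)) f3433
  have f3441 : T x27 x17 x42 = x19 :=
    h.st (h.p23 (h.p12 f821)) f823 (h.p23 (h.p12 f1955)) (h.p23 f506) f3435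
  obtain ⟨x57, f3564⟩ : ∃ d, T p q x30 = d := ⟨_, rfl⟩
  have f3565 : T p r1 r2 = x57 :=
    h.st (h.id3 p q) f25 f37 f1008 f3564
  have f3566 : T x57 r2 x45 = p :=
    h.st f3564 f37 f2239 f1010 (h.id3 p q)
  have f3567 : T x57 r2 x49 = r1 :=
    h.st f3564 f37 f2634 f1009 f25
  have f3569 : T r2 x20 r = x57 :=
    h.st3 (h.p12 (h.p23 f462)) f1011 (h.id3 r2 x20) (h.p12 f1009) f3565
  have f3570 : T r r2 x45 = r1 :=
    h.st3 (h.p12 (h.p23 f3569)) (h.id2 r r2) (h.p12 (h.p23 f2637)) (h.p12 f2241) f3567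
  have f3571 : T x57 r x49 = x45 :=
    h.st (h.p12 (h.p23 f3569)) (h.id3 r r2) (h.p12 (h.p23 f2637)) (h.p12 f1011) (h.p12 (h.p23 (h.p12 f2240)))
  have f3572 : T r2 x57 r = x20 :=
    h.st4 (h.id3 r2 x57) (h.p12 f3567) (h.p12 f3566) (h.p23 f3571) (h.p12 (h.p23 (h.p12 f462)))
  obtain ⟨x58, f3691⟩ : ∃ d, T p q x32 = d := ⟨_, rfl⟩
  have f3692 : T p r1 x17 = x58 :=
    h.st (h.id3 p q) f25 f339 f1143 f3691
  have f3693 : T r1 r2 x19 = x58 :=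
    h.st f25 f37 f418 f1145 f3691
  have f3696 : T x20 r2 x40 = x19 :=
    h.st7 (h.p23 (h.p12 f462)) (h.id3 r1 r2) f3073 f3693 f3692
  obtain ⟨x59, f3820⟩ : ∃ d, T p q x33 = d := ⟨_, rfl⟩
  have f3822 : T p r2 x19 = x59 :=
    h.st (h.id3 p q) f37 f418 f1215 f3820
  have f3827 : T r2 x20 x22 = x59 :=
    h.st3 (h.p12 (h.p23 f462)) (h.id3 r2 x20) (h.p12 f3696) (h.p23 (h.p12 f1777)) f3822
  obtain ⟨x61, f4079⟩ : ∃ d, T p q x35 = d := ⟨_, rfl⟩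
  have f4080 : T p r2 x14 = x61 :=
    h.st (h.id3 p q) f37 f237 (h.p23 f1359) f4079
  have f4081 : T x61 r2 x45 = x47 :=
    h.st f4079 f37 f2239 f1360 f2434
  have f4083 : T x14 x17 x19 = x61 :=
    h.st f237 f339 f418 f1362 f4079
  have f4086 : T r1 r2 x15 = x61 :=
    h.st4 (h.id2 r1 r2) f2240 f3077 (h.p12 f555) (h.p23 (h.p12 f4081))
  obtain ⟨x65, f4631⟩ : ∃ d, T p q x40 = d := ⟨_, rfl⟩
  have f4632 : T r1 r2 x14 = x65 :=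
    h.st f25 f37 f237 (h.p23 f1775) f4631
  obtain ⟨x66, f4777⟩ : ∃ d, T p q x41 = d := ⟨_, rfl⟩
  have f4778 : T r1 v x14 = x66 :=
    h.st f25 f67 f237 (h.p23 f1867) f4777
  have f4780 : T x66 x14 x17 = x45 :=
    h.st f4777 f237 f339 (h.p12 (h.p23 f3439)) f2239
  have f4783 : T x27 x37 x42 = x66 :=
    h.st (h.p23 (h.p12 f821)) (h.p23 (h.p12 f1519)) (h.p23 (h.p12 f1955)) f25 (h.p23 (h.p12 f4778))
  have f4789 : T x17 x27 x66 = x61 :=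
    h.st3 (h.id3 x17 x27) (h.p12 (h.p23 (h.p12 f1522))) (h.p12 f3441) f4783 (h.p12 f4083)
  have f4790 : T x17 x37 x66 = x53 :=
    h.st3 (h.p12 (h.p23 f1522)) (h.id3 x17 x37) (h.p23 (h.p12 f3437)) f4783 f3070
  have f4796 : T x61 x66 x53 = x45 :=
    h.st (h.p23 f4789) (h.id2 x17 x66) (h.p23 f4790) (h.p23 (h.p12 f1522)) (h.p12 (h.p23 f4780))
  have f4802 : T x35 x41 x25 = r2 :=
    h.st7 f4079 f4777 f3066 f2239 f4796
  have f4803 : T r1 r2 x41 = x66 :=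
    h.st4 f4086 f3071 f2240 (h.p23 (h.p12 f1869)) (h.p23 f4796)
  have f4805 : T x14 x42 w = x41 :=
    h.st4 (h.p12 f1957) (h.p12 f1956) (h.p23 f3433) f1526 (h.p23 f4802)
  obtain ⟨x67, f4941⟩ : ∃ d, T p q x42 = d := ⟨_, rfl⟩
  have f4943 : T r1 x18 x19 = x67 :=
    h.st f25 f377 f418 f1959 f4941
  have f4956 : T r1 r2 x42 = x67 :=
    h.st3 (h.id3 r1 r2) (h.p23 (h.p12 f1360)) (h.p23 (h.p12 f708)) (h.p23 f3436) f4943
  have f4958 : T x67 a x65 = x66 :=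
    h.st f4956 f85 f4632 (h.p23 (h.p12 f4805)) f4803
  have f4960 : T x42 a1 x40 = x41 :=
    h.st7 f4941 f105 f4631 f4777 f4958
  obtain ⟨x70, f5397⟩ : ∃ d, T p r r2 = d := ⟨_, rfl⟩
  have f5398 : T x70 r x45 = x20 :=
    h.st (h.p23 (h.p12 f5397)) (h.id3 r r2) (h.p12 (h.p23 (h.p12 f2240))) (h.p23 f3565) (h.p12 (h.p23 f3572))
  have f5400 : T r r1 x20 = x70 :=
    h.st (h.id3 r r2) f3570 (h.p12 (h.p23 f3572)) (h.p23 (h.p12 f3566)) (h.p23 (h.p12 f5397))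
  have f5402 : T r r2 x70 = p :=
    h.st4 (h.id2 r r2) f3570 (h.p12 (h.p23 f3569)) (h.p23 (h.p12 f5398)) (h.p12 (h.p23 (h.p12 f3565)))
  obtain ⟨x72, f5701⟩ : ∃ d, T p r x18 = d := ⟨_, rfl⟩
  have f5703 : T r r1 x23 = x72 :=
    h.st (h.id2 p r) (h.p23 f25) f603 f377 f5701
  have f5704 : T r1 x20 x22 = x72 :=
    h.st (h.p23 f25) f461 f553 f378 f5701
  have f5705 : T r1 x20 x35 = x23 :=
    h.st4 (h.p23 (h.p12 f1009)) (h.id3 r1 x20) f5704 (h.p12 f3080) f5703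
  have f5707 : T x23 x18 x33 = x35 :=
    h.st (h.p23 f5705) (h.p12 f1360) (h.p12 f1361) (h.p12 f1011) (h.id2 r1 x35)
  have f5710 : T x51 x47 x59 = x61 :=
    h.st f2846 f2434 f3820 f5707 f4079
  have f5713 : T r2 x22 r = x61 :=
    h.st3 (h.p23 f3079) (h.p23 (h.p12 f3077)) (h.p23 f3827) f1009 f5710
  obtain ⟨x95, f9944⟩ : ∃ d, T p r x41 = d := ⟨_, rfl⟩
  have f9950 : T x95 x23 x24 = p :=
    h.st f9944 f603 f653 f1869 (h.id3 p r)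
  have f9952 : T r1 x20 x41 = x95 :=
    h.st4 f5705 (h.p23 (h.p12 f709)) (h.p12 f462) (h.p23 f4802) (h.p23 (h.p12 f9950))
  obtain ⟨x96, f10147⟩ : ∃ d, T p r x42 = d := ⟨_, rfl⟩
  have f10149 : T p x23 x24 = x96 :=
    h.st (h.id3 p r) f603 f653 f1959 f10147
  have f10150 : T x96 x21 x22 = x95 :=
    h.st f10147 f506 f553 (h.p23 (h.p12 f4805)) f9944
  have f10161 : T r1 x20 x42 = x96 :=
    h.st3 (h.p12 f462) f5705 (h.p23 (h.p12 f709)) (h.p23 f3436) f10149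
  have f10164 : T r1 x20 a1 = x21 :=
    h.st4 f10161 (h.p23 (h.p12 f1777)) f9952 (h.p23 f4960) (h.p23 f10150)
  have f10168 : T r x70 k = x15 :=
    h.st (h.id3 r r1) f5400 f106 f10164 (h.p23 (h.p12 f507))
  obtain ⟨x99, f10794⟩ : ∃ d, T p v r2 = d := ⟨_, rfl⟩
  have f10795 : T x99 r2 x45 = x61 :=
    h.st (h.p23 f10794) (h.id2 p r2) (h.p23 f2239) (h.p12 (h.p23 f237)) f4080
  have f10805 : T r r2 x15 = x99 :=
    h.st4 (h.id2 r r2) (h.p12 (h.p23 (h.p12 f2240))) (h.p12 (h.p23 f5713)) f555 (h.p23 (h.p12 f10795))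
  have f10820 : T r2 kk p = x99 :=
    h.st (h.id2 r r2) f128 f5402 (h.p23 f10168) f10805
  exact h.inj p r2 v kk ((h.p23 f10794).trans (h.p12 (h.p23 f10820)).symm)

/-- for `C = T p q` the translation `T r (C (C r))` is an involution -/
theorem kap2 (h : TS T) {p q r r1 r2 : K} (h1 : T p q r = r1) (h2 : T p q r1 = r2) (v : K) :
    T r r2 (T r r2 v) = v := by
  obtain ⟨w, hw⟩ := h.surj p q v
  obtain ⟨a1, ha1⟩ := h.surj p q (T r1 r2 w)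
  exact (h.kapB h1 h2 rfl hw rfl ha1 rfl).symm

end TS

end ALoop
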