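import Mathlib

/-!
# Pure group lemma (the A1/A2 trick)
-/

namespace Pool.Agent.H86.TS

theorem trick {G : Type*} [Group G] {l r l' r' : G} (h1 : l * r = r * l) (h2 : l * l' = l' * l)
    (h3 : r * r' = r' * r) (h4 : l' * r' = r' * l') (h5 : (l * r) * (l' * r') = (l' * r') * (l * r)) :
    (l * r⁻¹) * (l' * r'⁻¹) = (l' * r'⁻¹) * (l * r⁻¹) := by
  have c1 : Commute l r := h1
  have c2 : Commute l l' := h2
  have c3 : Commute r r' := h3
  have c4 : Commute l' r' := h4
  set c : G := r * l' * r⁻¹ * l'⁻¹ with hc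
  set d : G := r' * l * r'⁻¹ * l⁻¹ with hd
  have cl : Commute l c := by
    rw [hc]
    exact ((c1.mul_right c2).mul_right c1.inv_right).mul_right c2.inv_right
  have cr' : Commute r' c := by
    rw [hc]
    exact ((c3.symm.mul_right c4.symm).mul_right c3.symm.inv_right).mul_right c4.symm.inv_right
  have dl' : Commute l' d := by
    rw [hd]
    exact ((c4.mul_right c2.symm).mul_right c4.inv_right).mul_right c2.symm.inv_right
  have dr : Commute r d := by
    rw [hd]
    exact ((c3.mul_right c1.symm).mul_right c3.inv_right).mul_right c1.symm.inv_right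
  have e1 : r * l' = c * (l' * r) := by rw [hc]; group
  have e2 : r' * l = d * (l * r') := by rw [hd]; group
  have hcd : c = d := by
    have a1 : (l * r) * (l' * r') = c * (l * l' * r * r') := by
      calc (l * r) * (l' * r') = l * (r * l') * r' := by group
        _ = l * (c * (l' * r)) * r' := by rw [e1]
        _ = (l * c) * (l' * r) * r' := by group
        _ = (c * l) * (l' * r) * r' := by rw [cl.eq]
        _ = c * (l * l' * r * r') := by group
    have a2 : (l' * r') * (l * r) = d * (l * l' * r * r') := by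
      calc (l' * r') * (l * r) = l' * (r' * l) * r := by group
        _ = l' * (d * (l * r')) * r := by rw [e2]
        _ = (l' * d) * (l * r') * r := by group
        _ = (d * l') * (l * r') * r := by rw [dl'.eq]
        _ = d * ((l' * l) * (r' * r)) := by group
        _ = d * ((l * l') * (r * r')) := by rw [c2.eq, c3.eq]
        _ = d * (l * l' * r * r') := by group
    exact mul_right_cancel (a1.symm.trans (h5.trans a2))
  have cl' : Commute l' c := hcd ▸ dl'
  have cr : Commute r c := hcd ▸ dr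
  have f1 : r⁻¹ * l' = c⁻¹ * (l' * r⁻¹) := by
    have : r * l' * r⁻¹ = c * l' := by rw [e1]; group
    have h : r⁻¹ * (r * l' * r⁻¹) = r⁻¹ * (c * l') := by rw [this]
    have h' : l' * r⁻¹ = r⁻¹ * c * l' := by
      calc l' * r⁻¹ = r⁻¹ * (r * l' * r⁻¹) := by group
        _ = r⁻¹ * (c * l') := h
        _ = r⁻¹ * c * l' := by group
    rw [h', cr.inv_left.eq]; group
  have f2 : r'⁻¹ * l = c⁻¹ * (l * r'⁻¹) := by
    have : r' * l * r'⁻¹ = c * l := by rw [e2, ← hcd]; group
    have h' : l * r'⁻¹ = r'⁻¹ * c * l := by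
      calc l * r'⁻¹ = r'⁻¹ * (r' * l * r'⁻¹) := by group
        _ = r'⁻¹ * (c * l) := by rw [this]
        _ = r'⁻¹ * c * l := by group
    rw [h', cr'.inv_left.eq]; group
  calc (l * r⁻¹) * (l' * r'⁻¹) = l * (r⁻¹ * l') * r'⁻¹ := by group
    _ = l * (c⁻¹ * (l' * r⁻¹)) * r'⁻¹ := by rw [f1]
    _ = (l * c⁻¹) * (l' * r⁻¹) * r'⁻¹ := by group
    _ = (c⁻¹ * l) * (l' * r⁻¹) * r'⁻¹ := by rw [cl.inv_right.eq]
    _ = c⁻¹ * ((l * l') * (r⁻¹ * r'⁻¹)) := by group
    _ = c⁻¹ * ((l' * l) * (r'⁻¹ * r⁻¹)) := by rw [c2.eq, (c3.inv_inv).eq]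
    _ = (c⁻¹ * l') * (l * r'⁻¹) * r⁻¹ := by group
    _ = (l' * c⁻¹) * (l * r'⁻¹) * r⁻¹ := by rw [cl'.inv_right.eq]
    _ = l' * (c⁻¹ * (l * r'⁻¹)) * r⁻¹ := by group
    _ = l' * (r'⁻¹ * l) * r⁻¹ := by rw [f2]
    _ = (l' * r'⁻¹) * (l * r⁻¹) := by group

end Pool.Agent.H86.TS
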